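import Pool.Agent.Q220.PPQ.Ops

/-!
# A finite digraph which is not pp-constructible from its product with the rationals
(MP_ce9419_lc)

`PP n` are the primitive positive formulas with `n` free variables in the language of digraphs,
`PPConstructs E F` says that the digraph `E` pp-constructs the digraph `F`, and `ratProd F` is the
categorical product of the strict order of the rationals with `F`.  There is a finite digraph `F`
(with 20 vertices) which is not pp-constructible from `ratProd F`.

Proof.  Let `F` be the digraph `E` on `V` of the module `Graph`: the vertices `k i l` form a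
directed 6-cycle times the order `false ≤ true`, the vertices `q i` a directed 2-cycle, the
vertices `t i` a directed 3-cycle; there are three sinks: `v` is dominated by all `k i l`, `vp` by
all `k i true` and all `q i`, and `vu` by all `k i false` and all `t i`.  No walk leads from some
`k i true` to some `k j false`, and every endomorphism keeps the sets of the `k i true` and of the
`k i false`.  Suppose that the product pp-constructs `F`.  Polymorphisms of the form
`(max q₂ q₃, first coordinate)` allow to assume that the homomorphism from `F` to the pp-power uses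
fixed rationals `Q i`.  A family of operations `f s` of `V`, for rational `s`, such that
`f s x y z → f s' x' y' z'` for `s < s'`, `x → x'`, `y → y'`, `z → z'` then gives a ternary
polymorphism of `F`.  Finitely many such families form a Hagemann-Mitschke chain from the first to
the second projection, because within one level `s` the operation `f s` need not be monotone in the
labels.  Such a chain leads from `k i true` to `k j false` by a directed walk in `F`.
-/

namespace Pool.Agent.Results.MP_ce9419_lc.NoPPConstruction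

open Pool.Agent.Q220.PPQ

/-- primitive positive formulas with `n` free variables in the language of digraphs -/
inductive PP : ℕ → Type
  | eq {n : ℕ} (i j : Fin n) : PP n
  | edge {n : ℕ} (i j : Fin n) : PP n
  | and {n : ℕ} (φ ψ : PP n) : PP n
  | ex {n : ℕ} (φ : PP (n + 1)) : PP n

/-- the truth of a primitive positive formula in a digraph; in `ex φ` the quantified variable is
the last variable of `φ` -/
def PP.Holds {B : Type} (E : B → B → Prop) : {n : ℕ} → PP n → (Fin n → B) → Prop
  | _, .eq i j, x => x i = x j
  | _, .edge i j, x => E (x i) (x j)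
  | _, .and φ ψ, x => φ.Holds E x ∧ ψ.Holds E x
  | _, .ex φ, x => ∃ b : B, φ.Holds E (Fin.snoc x b)

/-- the digraph `E` pp-constructs the digraph `F`: for some `d ≥ 1` there is a binary relation on
the `d`-tuples, pp-definable in `E` as a relation of arity `d + d`, which is homomorphically
equivalent to `F` -/
def PPConstructs {B C : Type} (E : B → B → Prop) (F : C → C → Prop) : Prop :=
  ∃ d : ℕ, 1 ≤ d ∧ ∃ φ : PP (d + d),
    (∃ g : C → Fin d → B, ∀ u v, F u v → φ.Holds E (Fin.append (g u) (g v))) ∧
    (∃ h : (Fin d → B) → C, ∀ x y, φ.Holds E (Fin.append x y) → F (h x) (h y))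

/-- the categorical product of the strict order of the rationals with a digraph -/
def ratProd {C : Type} (F : C → C → Prop) : ℚ × C → ℚ × C → Prop :=
  fun a b => a.1 < b.1 ∧ F a.2 b.2

/-- primitive positive formulas are preserved by ternary polymorphisms -/
theorem holds_pol {B : Type} {E : B → B → Prop} (f : B → B → B → B)
    (hf : ∀ x x' y y' z z', E x x' → E y y' → E z z' → E (f x y z) (f x' y' z'))
    {n : ℕ} (φ : PP n) (a b c : Fin n → B) (ha : φ.Holds E a) (hb : φ.Holds E b)
    (hc : φ.Holds E c) : φ.Holds E (fun i => f (a i) (b i) (c i)) := by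
  induction φ with
  | eq i j =>
    simp only [PP.Holds] at *
    rw [ha, hb, hc]
  | edge i j =>
    simp only [PP.Holds] at *
    exact hf _ _ _ _ _ _ ha hb hc
  | and φ ψ h1 h2 =>
    simp only [PP.Holds] at *
    exact ⟨h1 a b c ha.1 hb.1 hc.1, h2 a b c ha.2 hb.2 hc.2⟩
  | ex φ h1 =>
    simp only [PP.Holds] at *
    obtain ⟨x, hx⟩ := ha
    obtain ⟨y, hy⟩ := hb
    obtain ⟨z, hz⟩ := hc
    refine ⟨f x y z, ?_⟩
    have h := h1 _ _ _ hx hy hz
    have he : (fun i => f ((Fin.snoc a x : Fin _ → B) i) ((Fin.snoc b y : Fin _ → B) i)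
        ((Fin.snoc c z : Fin _ → B) i)) =
        (Fin.snoc (fun i => f (a i) (b i) (c i)) (f x y z) : Fin _ → B) := by
      funext i
      refine Fin.lastCases ?_ (fun j => ?_) i
      · simp
      · simp
    rw [← he]
    exact h

/-- families of ternary operations indexed by the rationals, compatible with the digraph -/
def IsFam (f : ℚ → V → V → V → V) : Prop :=
  ∀ s s', s < s' → ∀ x x' y y' z z', E x x' → E y y' → E z z' → E (f s x y z) (f s' x' y' z')

/-- one step of a Hagemann-Mitschke chain -/
def Conn (b b' : ℚ → V → V → V) : Prop :=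
  ∃ f, IsFam f ∧ (∀ s x y, f s x y y = b s x y) ∧ (∀ s x y, f s x x y = b' s x y)

def swap (b : ℚ → V → V → V) : ℚ → V → V → V := fun s x y => b s y x

theorem conn_swap {b b' : ℚ → V → V → V} (h : Conn b b') : Conn (swap b') (swap b) := by
  obtain ⟨f, hf, h1, h2⟩ := h
  refine ⟨fun s x y z => f s z y x, ?_, fun s x y => h2 s y x, fun s x y => h1 s y x⟩
  intro s s' hs x x' y y' z z' hx hy hz
  exact hf s s' hs _ _ _ _ _ _ hz hy hx

/-- a step of a chain, or equality of the binary families at the finitely many rationals `Q i` -/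
def Rel {d : ℕ} (Q : Fin d → ℚ) (b b' : ℚ → V → V → V) : Prop :=
  Conn b b' ∨ ∀ i, b (Q i) = b' (Q i)

def Reach {d : ℕ} (Q : Fin d → ℚ) : (ℚ → V → V → V) → (ℚ → V → V → V) → Prop :=
  Relation.ReflTransGen (Rel Q)

theorem reach_swap {d : ℕ} {Q : Fin d → ℚ} {b b' : ℚ → V → V → V} (h : Reach Q b b') :
    Reach Q (swap b') (swap b) := by
  induction h with
  | refl => exact Relation.ReflTransGen.refl
  | tail _ h2 ih =>
    refine Relation.ReflTransGen.head ?_ ih
    rcases h2 with h2 | h2
    · exact Or.inl (conn_swap h2)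
    · refine Or.inr (fun i => ?_)
      funext x y
      show _ = _
      exact (congrFun (congrFun (h2 i) y) x).symm

theorem conn_A0 : Conn (fun _ x _ => x) (fun _ => L0) :=
  ⟨fun _ => A0, fun _ _ _ _ _ _ _ _ _ hx hy hz => A0_edge hx hy hz,
    fun _ x y => A0_xyy x y, fun _ x y => A0_xxy x y⟩

theorem conn_A1 : Conn (fun _ => L0) (fun _ => L1) :=
  ⟨fun _ => A1, fun _ _ _ _ _ _ _ _ _ hx hy hz => A1_edge hx hy hz,
    fun _ x y => A1_xyy x y, fun _ x y => A1_xxy x y⟩

theorem conn_A2 : Conn (fun _ => L1) (fun _ => gB) :=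
  ⟨fun _ => A2, fun _ _ _ _ _ _ _ _ _ hx hy hz => A2_edge hx hy hz,
    fun _ x y => A2_xyy x y, fun _ x y => A2_xxy x y⟩

theorem conn_D : Conn (fun _ => mB) (swap fun _ => mB) := by
  refine ⟨fun _ => good true mn, fun _ _ _ _ _ _ _ _ _ hx hy hz => ?_,
    fun _ x y => d_xyy x y, fun _ x y => d_xxy x y⟩
  refine good_edge true mn mn ?_ rfl rfl hx hy hz
  decide

theorem conn_N (c : ℚ) : Conn (fun s => if s < c then mB else gB)
    (fun s => if s ≤ c then mB else gB) := by
  refine ⟨fun s => good false (if s < c then mn else if s = c then nu else pr), ?_, ?_, ?_⟩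
  · intro s s' hs x x' y y' z z' hx hy hz
    refine good_edge false _ _ ?_ ?_ ?_ hx hy hz
    · by_cases h1 : s < c
      · rw [if_pos h1]
        by_cases h2 : s' < c
        · rw [if_pos h2]
          decide
        · rw [if_neg h2]
          by_cases h3 : s' = c
          · rw [if_pos h3]
            decide
          · rw [if_neg h3]
            decide
      · have h2 : ¬ s' < c := by linarith
        have h3 : ¬ s' = c := by
          intro h3
          linarith
        rw [if_neg h1, if_neg h2, if_neg h3]
        split_ifs <;> decide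
    · split_ifs <;> rfl
    · split_ifs <;> rfl
  · intro s x y
    rcases lt_trichotomy s c with h | h | h
    · simp only [if_pos h]
      rfl
    · subst h
      simp only [lt_irrefl, if_false, if_true]
      exact n_xyy x y
    · have h1 : ¬ s < c := not_lt.2 h.le
      have h2 : ¬ s = c := ne_of_gt h
      simp only [if_neg h1, if_neg h2]
      rfl
  · intro s x y
    rcases lt_trichotomy s c with h | h | h
    · simp only [if_pos h, if_pos h.le]
      exact m_xxy x y
    · subst h
      simp only [lt_irrefl, if_false, if_true, le_refl]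
      exact n_xxy x y
    · have h1 : ¬ s < c := not_lt.2 h.le
      have h2 : ¬ s = c := ne_of_gt h
      have h3 : ¬ s ≤ c := not_le.2 h
      simp only [if_neg h1, if_neg h2, if_neg h3]
      exact g_xxy x y

theorem reach_lt {d : ℕ} (Q : Fin d → ℚ) (n : ℕ) : ∀ c : ℚ,
    (Finset.univ.filter (fun i => Q i < c)).card ≤ n →
    Reach Q (fun _ => gB) (fun s => if s < c then mB else gB) := by
  induction n with
  | zero =>
    intro c hc
    refine Relation.ReflTransGen.single (Or.inr (fun i => ?_))
    have h : ¬ Q i < c := by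
      intro h
      have : i ∈ Finset.univ.filter (fun i => Q i < c) := by simp [h]
      rw [Finset.card_eq_zero.1 (Nat.le_zero.1 hc)] at this
      simp at this
    simp only [if_neg h]
  | succ n ih =>
    intro c hc
    by_cases hne : (Finset.univ.filter (fun i => Q i < c)).Nonempty
    · obtain ⟨m, hm, hmax⟩ := Finset.exists_max_image _ Q hne
      have hm' : Q m < c := by simpa using hm
      have h1 : Reach Q (fun _ => gB) (fun s => if s < Q m then mB else gB) := by
        apply ih
        have hlt : (Finset.univ.filter (fun i => Q i < Q m)).card <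
            (Finset.univ.filter (fun i => Q i < c)).card := by
          apply Finset.card_lt_card
          refine ⟨?_, ?_⟩
          · intro i hi
            simp only [Finset.mem_filter, Finset.mem_univ, true_and] at hi ⊢
            exact hi.trans hm'
          · intro h
            have := h hm
            simp at this
        omega
      refine (h1.tail (Or.inl (conn_N (Q m)))).tail (Or.inr (fun i => ?_))
      by_cases hi : Q i < c
      · have : Q i ≤ Q m := hmax i (by simp [hi])
        simp only [if_pos hi, if_pos this]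
      · have : ¬ Q i ≤ Q m := by
          intro h
          exact hi (lt_of_le_of_lt h hm')
        simp only [if_neg hi, if_neg this]
    · refine Relation.ReflTransGen.single (Or.inr (fun i => ?_))
      have h : ¬ Q i < c := by
        intro h
        exact hne ⟨i, by simp [h]⟩
      simp only [if_neg h]

theorem reach_m {d : ℕ} (Q : Fin d → ℚ) : Reach Q (fun _ x _ => x) (fun _ => mB) := by
  have h00 : Reach Q (fun _ x _ => x) (fun _ => L0) :=
    Relation.ReflTransGen.single (Or.inl conn_A0)
  have h0 : Reach Q (fun _ x _ => x) (fun _ => gB) :=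
    (h00.tail (Or.inl conn_A1)).tail (Or.inl conn_A2)
  obtain ⟨c, hc⟩ : ∃ c : ℚ, ∀ i, Q i < c := by
    obtain ⟨M, hM⟩ := (Set.finite_range Q).bddAbove
    exact ⟨M + 1, fun i => lt_of_le_of_lt (hM ⟨i, rfl⟩) (by linarith)⟩
  refine h0.trans ((reach_lt Q _ c le_rfl).tail (Or.inr (fun i => ?_)))
  simp only [if_pos (hc i)]

theorem reach_all {d : ℕ} (Q : Fin d → ℚ) :
    Reach Q (fun _ x _ => x) (swap (fun _ x _ => x)) :=
  ((reach_m Q).tail (Or.inl conn_D)).trans (reach_swap (reach_m Q))

/-! ### Endomorphisms -/

theorem two_cycle {x y : V} (h1 : E x y) (h2 : E y x) : ∃ i, x = V.q i := by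
  rcases E_cases h1 with ⟨i, l, l', hl, rfl, rfl⟩ | ⟨i, l, rfl, rfl⟩ | ⟨i, rfl, rfl⟩ |
    ⟨i, rfl, rfl⟩ | ⟨i, rfl, rfl⟩ | ⟨i, rfl, rfl⟩ | ⟨i, rfl, rfl⟩ | ⟨i, rfl, rfl⟩
  · exfalso
    have h := h2.1
    revert h
    clear h2 h1
    revert i
    decide
  · exact absurd h2 (by simp [E])
  · exact absurd h2 (by simp [E])
  · exact absurd h2 (by simp [E])
  · exact ⟨i, rfl⟩
  · exact absurd h2 (by simp [E])
  · exfalso
    have h : i = i + 1 + 1 := h2
    revert h
    clear h2 h1
    revert i
    decide
  · exact absurd h2 (by simp [E])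

theorem three_cycle {x y z : V} (h1 : E x y) (h2 : E y z) (h3 : E z x) : ∃ i, x = V.t i := by
  rcases E_cases h1 with ⟨i, l, l', hl, rfl, rfl⟩ | ⟨i, l, rfl, rfl⟩ | ⟨i, rfl, rfl⟩ |
    ⟨i, rfl, rfl⟩ | ⟨i, rfl, rfl⟩ | ⟨i, rfl, rfl⟩ | ⟨i, rfl, rfl⟩ | ⟨i, rfl, rfl⟩
  · exfalso
    cases z <;> simp only [E] at h2 h3
    have h := h3.1
    rw [h2.1] at h
    revert h
    clear h2 h1 h3
    revert i
    decide
  · exact absurd h2 (by cases z <;> simp [E])
  · exact absurd h2 (by cases z <;> simp [E])
  · exact absurd h2 (by cases z <;> simp [E])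
  · exfalso
    cases z <;> simp only [E] at h2 h3
    rw [h2] at h3
    revert h3
    clear h2 h1
    revert i
    decide
  · exact absurd h2 (by cases z <;> simp [E])
  · exact ⟨i, rfl⟩
  · exact absurd h2 (by cases z <;> simp [E])

theorem two_succ : ∀ i : ZMod 2, i = i + 1 + 1 := by decide

theorem three_succ : ∀ i : ZMod 3, i = i + 1 + 1 + 1 := by decide

theorem endo {e : V → V} (he : ∀ x y, E x y → E (e x) (e y)) :
    (∀ j, ∃ m, e (V.k j true) = V.k m true) ∧ (∀ j, ∃ m, e (V.k j false) = V.k m false) := by
  have hq : ∀ i, ∃ j, e (V.q i) = V.q j := by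
    intro i
    have h1 : E (V.q i) (V.q (i + 1)) := rfl
    have h2 : E (V.q (i + 1)) (V.q i) := two_succ i
    exact two_cycle (he _ _ h1) (he _ _ h2)
  have ht : ∀ i, ∃ j, e (V.t i) = V.t j := by
    intro i
    have h1 : E (V.t i) (V.t (i + 1)) := rfl
    have h2 : E (V.t (i + 1)) (V.t (i + 1 + 1)) := rfl
    have h3 : E (V.t (i + 1 + 1)) (V.t i) := three_succ i
    exact three_cycle (he _ _ h1) (he _ _ h2) (he _ _ h3)
  have hvp : e V.vp = V.vp := by
    obtain ⟨a, ha⟩ := hq 0
    obtain ⟨b, hb⟩ := hq 1
    have h0 : E (e (V.q 0)) (e V.vp) := he _ _ trivial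
    have h1 : E (e (V.q 1)) (e V.vp) := he _ _ trivial
    have h2 : E (e (V.q 0)) (e (V.q 1)) := he _ _ (by show (1 : ZMod 2) = 0 + 1; rfl)
    rw [ha] at h0 h2
    rw [hb] at h1 h2
    have h2' : b = a + 1 := h2
    cases hx : e V.vp <;> rw [hx] at h0 h1 <;> simp only [E] at h0 h1
    exfalso
    rw [h0, h2'] at h1
    simp at h1
  have hvu : e V.vu = V.vu := by
    obtain ⟨a, ha⟩ := ht 0
    obtain ⟨b, hb⟩ := ht 1
    have h0 : E (e (V.t 0)) (e V.vu) := he _ _ trivial
    have h1 : E (e (V.t 1)) (e V.vu) := he _ _ trivial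
    have h2 : E (e (V.t 0)) (e (V.t 1)) := he _ _ (by show (1 : ZMod 3) = 0 + 1; rfl)
    rw [ha] at h0 h2
    rw [hb] at h1 h2
    have h2' : b = a + 1 := h2
    cases hx : e V.vu <;> rw [hx] at h0 h1 <;> simp only [E] at h0 h1
    exfalso
    rw [h0, h2'] at h1
    simp at h1
  have hp : ∀ j, (∃ m, e (V.k j true) = V.k m true) ∨ ∃ m, e (V.k j true) = V.q m := by
    intro j
    have h : E (e (V.k j true)) (e V.vp) := he _ _ rfl
    rw [hvp] at h
    cases hx : e (V.k j true) <;> rw [hx] at h <;> simp only [E] at h
    · rw [h]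
      exact Or.inl ⟨_, rfl⟩
    · exact Or.inr ⟨_, rfl⟩
  have hu : ∀ j, (∃ m, e (V.k j false) = V.k m false) ∨ ∃ m, e (V.k j false) = V.t m := by
    intro j
    have h : E (e (V.k j false)) (e V.vu) := he _ _ rfl
    rw [hvu] at h
    cases hx : e (V.k j false) <;> rw [hx] at h <;> simp only [E] at h
    · rw [h]
      exact Or.inl ⟨_, rfl⟩
    · exact Or.inr ⟨_, rfl⟩
  have hP : ∀ j, ∃ m, e (V.k (j + 1) true) = V.k m true := by
    intro j
    rcases hp (j + 1) with h | ⟨m, hm⟩
    · exact h
    · exfalso
      have h : E (e (V.k j false)) (e (V.k (j + 1) true)) := he _ _ ⟨rfl, by decide⟩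
      rw [hm] at h
      rcases hu j with ⟨r, hr⟩ | ⟨r, hr⟩ <;> rw [hr] at h <;> simp only [E] at h
  have hP' : ∀ j, ∃ m, e (V.k j true) = V.k m true := by
    intro j
    have := hP (j - 1)
    rwa [sub_add_cancel] at this
  refine ⟨hP', ?_⟩
  intro j
  rcases hu j with h | ⟨m, hm⟩
  · exact h
  · exfalso
    have h : E (e (V.k j false)) (e (V.k (j + 1) true)) := he _ _ ⟨rfl, by decide⟩
    obtain ⟨r, hr⟩ := hP j
    rw [hm, hr] at h
    simp only [E] at h

/-- **There is a finite digraph which is not pp-constructible from its product with the rational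
numbers.** -/
theorem result : ∃ (C : Type) (_ : Finite C) (F : C → C → Prop),
    ¬ PPConstructs (ratProd F) F := by
  refine ⟨V, finite_V, E, ?_⟩
  rintro ⟨d, -, φ, ⟨g, hg⟩, h, hh⟩
  -- normalisation
  let Q : Fin d → ℚ := fun i => max (g (V.q 0) i).1 (g (V.q 1) i).1
  let a : V → Fin d → V := fun u i => (g u i).2
  have hR : ∀ u w, E u w → φ.Holds (ratProd E)
      (Fin.append (fun i => (Q i, a u i)) (fun i => (Q i, a w i))) := by
    intro u w huw
    have h1 := hg u w huw
    have h2 := hg (V.q 0) (V.q 1) (by show (1 : ZMod 2) = 0 + 1; rfl)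
    have h3 := hg (V.q 1) (V.q 0) (by show (0 : ZMod 2) = 1 + 1; rfl)
    have h4 := holds_pol (E := ratProd E) (fun x y z => (max y.1 z.1, x.2))
      (fun x x' y y' z z' hx hy hz => ⟨max_lt_max hy.1 hz.1, hx.2⟩) φ _ _ _ h1 h2 h3
    have h5 : (fun i => ((max (Fin.append (g (V.q 0)) (g (V.q 1)) i).1
        (Fin.append (g (V.q 1)) (g (V.q 0)) i).1, (Fin.append (g u) (g w) i).2) : ℚ × V)) =
        Fin.append (fun i => (Q i, a u i)) (fun i => (Q i, a w i)) := by
      funext i
      refine Fin.addCases (fun j => ?_) (fun j => ?_) i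
      · simp only [Fin.append_left, Q, a]
      · simp only [Fin.append_right, Q, a, max_comm]
    rw [← h5]
    exact h4
  have key : ∀ f, IsFam f → ∀ x x' y y' z z', E x x' → E y y' → E z z' →
      E (h (fun i => (Q i, f (Q i) (a x i) (a y i) (a z i))))
        (h (fun i => (Q i, f (Q i) (a x' i) (a y' i) (a z' i)))) := by
    intro f hf x x' y y' z z' hx hy hz
    apply hh
    have h4 := holds_pol (E := ratProd E) (fun x y z => (x.1, f x.1 x.2 y.2 z.2))
      (fun x x' y y' z z' hx hy hz => ⟨hx.1, hf _ _ hx.1 _ _ _ _ _ _ hx.2 hy.2 hz.2⟩) φ _ _ _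
      (hR x x' hx) (hR y y' hy) (hR z z' hz)
    have h5 : (fun i => (((Fin.append (fun i => (Q i, a x i)) (fun i => (Q i, a x' i)) i).1,
        f (Fin.append (fun i => (Q i, a x i)) (fun i => (Q i, a x' i)) i).1
          (Fin.append (fun i => (Q i, a x i)) (fun i => (Q i, a x' i)) i).2
          (Fin.append (fun i => (Q i, a y i)) (fun i => (Q i, a y' i)) i).2
          (Fin.append (fun i => (Q i, a z i)) (fun i => (Q i, a z' i)) i).2) : ℚ × V)) =
        Fin.append (fun i => (Q i, f (Q i) (a x i) (a y i) (a z i)))
          (fun i => (Q i, f (Q i) (a x' i) (a y' i) (a z' i))) := by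
      funext i
      refine Fin.addCases (fun j => ?_) (fun j => ?_) i
      · simp only [Fin.append_left]
      · simp only [Fin.append_right]
    rw [← h5]
    exact h4
  let val : (ℚ → V → V → V) → V → V → V := fun b u w => h (fun i => (Q i, b (Q i) (a u i) (a w i)))
  have step : ∀ b b', Rel Q b b' →
      (∀ j, ∃ m, val b (V.k j true) (V.k j false) = V.k m true) →
      ∀ j, ∃ m, val b' (V.k j true) (V.k j false) = V.k m true := by
    rintro b b' (⟨f, hf, h1, h2⟩ | hag) hb j
    · obtain ⟨m, hm⟩ := hb (j - 1)
      have e1 : E (val b (V.k (j - 1) true) (V.k (j - 1) false))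
          (val b' (V.k j true) (V.k j false)) := by
        have := key f hf (V.k (j - 1) true) (V.k j true) (V.k (j - 1) false) (V.k j true)
          (V.k (j - 1) false) (V.k j false) ⟨by ring, le_rfl⟩ ⟨by ring, by decide⟩
          ⟨by ring, le_rfl⟩
        simp only [h1, h2] at this
        exact this
      have e2 : E (val b' (V.k j true) (V.k j false))
          (val b' (V.k (j + 1) true) (V.k (j + 1) false)) := by
        have := key f hf (V.k j true) (V.k (j + 1) true) (V.k j true) (V.k (j + 1) true)
          (V.k j false) (V.k (j + 1) false) ⟨rfl, le_rfl⟩ ⟨rfl, le_rfl⟩ ⟨rfl, le_rfl⟩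
        simp only [h2] at this
        exact this
      rw [hm] at e1
      generalize val b' (V.k j true) (V.k j false) = w at e1 e2
      generalize val b' (V.k (j + 1) true) (V.k (j + 1) false) = w' at e2
      cases w with
      | k i l =>
        have : l = true := by
          have := e1.2
          cases l
          · exact absurd this (by decide)
          · rfl
        rw [this]
        exact ⟨i, rfl⟩
      | q i => exact absurd e1 (by simp [E])
      | t i => exact absurd e1 (by simp [E])
      | v => exact absurd e2 (by cases w' <;> simp [E])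
      | vp => exact absurd e2 (by cases w' <;> simp [E])
      | vu => exact absurd e2 (by cases w' <;> simp [E])
    · obtain ⟨m, hm⟩ := hb j
      refine ⟨m, ?_⟩
      rw [← hm]
      simp only [val, hag]
  have he : ∀ x y, E x y → E (h (fun i => (Q i, a x i))) (h (fun i => (Q i, a y i))) :=
    fun x y hxy => hh _ _ (hR x y hxy)
  obtain ⟨hP, hU⟩ := endo he
  have hall : ∀ b, Reach Q (fun _ x _ => x) b →
      ∀ j, ∃ m, val b (V.k j true) (V.k j false) = V.k m true := by
    intro b hb
    induction hb with
    | refl => exact hP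
    | tail _ h2 ih => exact step _ _ h2 ih
  obtain ⟨m, hm⟩ := hall _ (reach_all Q) 0
  obtain ⟨m', hm'⟩ := hU 0
  have : val (swap fun _ x _ => x) (V.k 0 true) (V.k 0 false) = V.k m' false := hm'
  rw [hm] at this
  simp at this

end Pool.Agent.Results.MP_ce9419_lc.NoPPConstruction
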